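import Pool.Agent.H37.CNP.Stmts

/-!
# Denominators of conductors: `p`-groups `G` with a normal elementary abelian subgroup `M`, `G / M`
elementary abelian of order `p ^ d` (`p` odd): statements of the rows of the board `cnx`

Row `XXX` is a theorem `xxx_thm (h1 : S_AAA) ... : S_XXX` in `Pool/Agent/H<k>/CNX/XXX.lean`, importing this
file, namespace `Pool.CND`.

Notation: `M ≃ F_p ^ n` by `φ`; `S g` = the inverse of conjugation by `g` (so `S (g h) = S h * S g`);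
`ι : G → k` additive with kernel `M`, `V` = its values, `Q = |V| = p ^ d`, `A = ∏_{v ∈ V} (X - v)` (`Apol ι`), an additive
polynomial, `A' = a ≠ 0` constant, `A(X + v) = A`; `θ = A / (a X)`, `∑_{v ∈ V} θ(X + v) = 1`, `θ(0) = 1`, `θ(v) = 0` for
`v ∈ V`, `v ≠ 0`; `t = A(x)`.  `G` acts by `x ↦ x + ι g`, `Y ↦ S g Y + C g (x)`, where `Y ^ p - Y = F(x)`.
-/

set_option autoImplicit false

namespace Pool.CND

open Finset Matrix

/-- `∏_{v ∈ V} (X - v)`, `V` = the values of `ι` -/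
noncomputable def Apol {k G : Type} [Field k] [Finite G] (ι : G → k) : Polynomial k :=
  ∏ v ∈ (Set.finite_range ι).toFinset, (Polynomial.X - Polynomial.C v)

/-- a matrix over `F_p` as a matrix of constant polynomials -/
noncomputable def mp {p n : ℕ} (k : Type) [Field k] [CharP k p]
    (S : Matrix (Fin n) (Fin n) (ZMod p)) : Matrix (Fin n) (Fin n) (Polynomial k) :=
  S.map (fun a => Polynomial.C (fp k a))

/-- a vector over `F_p` as a vector of constant polynomials -/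
noncomputable def vp {p n : ℕ} (k : Type) [Field k] [CharP k p] (v : Fin n → ZMod p) :
    Fin n → Polynomial k :=
  fun i => Polynomial.C (fp k (v i))

/-- the group data: `φ`, `S`, `ι` -/
structure XD {p : ℕ} {k G : Type} [Field k] [Group G] (M : Subgroup G) (n : ℕ)
    (φ : M ≃* Multiplicative (Fin n → ZMod p)) (S : G → Matrix (Fin n) (Fin n) (ZMod p))
    (ι : G → k) : Prop where
  conj : ∀ (g : G) (a : M), ∃ a' : M, (a' : G) = g * a * g⁻¹ ∧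
    S g *ᵥ Multiplicative.toAdd (φ a') = Multiplicative.toAdd (φ a)
  S_mul : ∀ g h : G, S (g * h) = S h * S g
  S_one : ∀ a ∈ M, S a = 1
  ι_mul : ∀ g h : G, ι (g * h) = ι g + ι h
  ι_ker : ∀ g : G, ι g = 0 ↔ g ∈ M

/-- the covering data: `C`, `F` -/
structure XC {p : ℕ} {k G : Type} [Field k] [CharP k p] [Group G] (M : Subgroup G) (n : ℕ)
    (φ : M ≃* Multiplicative (Fin n → ZMod p)) (S : G → Matrix (Fin n) (Fin n) (ZMod p))
    (ι : G → k) (C : G → Fin n → Polynomial k) (F : Fin n → Polynomial k) : Prop where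
  C_M : ∀ a : M, C a = vp k (Multiplicative.toAdd (φ a))
  C_mul : ∀ g h : G, C (g * h) = mp k (S h) *ᵥ C g +
    fun i => (C h i).comp (Polynomial.X + Polynomial.C (ι g))
  F_eq : ∀ g : G, (fun i => (F i).comp (Polynomial.X + Polynomial.C (ι g))) =
    mp k (S g) *ᵥ F + fun i => C g i ^ p - C g i

/-- the hypothesis on the group: `M` normal elementary abelian, `G / M` elementary abelian of order
`p ^ d`, `z ∈ M` central; for `g ∉ M` there is `h ∈ M` not commuting with `g`, with `[G, h] ⊆ ⟨z⟩` -/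
structure XH {G : Type} [Group G] (p d : ℕ) (M : Subgroup G) (z : G) : Prop where
  ea : EA p M
  normal : ∀ g : G, ∀ a ∈ M, g * a * g⁻¹ ∈ M
  pow : ∀ g : G, g ^ p ∈ M
  comm : ∀ g h : G, g * h * g⁻¹ * h⁻¹ ∈ M
  card : Nat.card G = p ^ d * Nat.card M
  z_mem : z ∈ M
  z_ne : z ≠ 1
  z_central : ∀ g : G, g * z = z * g
  pair : ∀ g : G, g ∉ M → ∃ h ∈ M, g * h ≠ h * g ∧
    ∀ g' : G, g' * h * g'⁻¹ * h⁻¹ ∈ Subgroup.zpowers z

/-- XAP: the additive polynomial of a finite subgroup of `k` -/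
def S_XAP : Prop := ∀ (p : ℕ) (k G : Type) [Field k] [Group G] [Finite G] (ι : G → k), p.Prime →
  CharP k p → (∀ g h : G, ι (g * h) = ι g + ι h) →
  ∃ (d : ℕ) (e : ℕ → k), Nat.card (Set.range ι) = p ^ d ∧ e d = 1 ∧ e 0 ≠ 0 ∧
    Apol ι = ∑ j ∈ range (d + 1), Polynomial.C (e j) * Polynomial.X ^ (p ^ j) ∧
    ∀ g : G, (Apol ι).comp (Polynomial.X + Polynomial.C (ι g)) = Apol ι

/-- XTH: the polynomial `θ = A / (a X)` -/
def S_XTH : Prop := ∀ (p : ℕ) (k G : Type) [Field k] [Group G] [Finite G] (ι : G → k), p.Prime →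
  CharP k p → (∀ g h : G, ι (g * h) = ι g + ι h) →
  ∃ θ : Polynomial k, θ.natDegree < Nat.card (Set.range ι) ∧ θ.eval 0 = 1 ∧
    ∑ v ∈ (Set.finite_range ι).toFinset, θ.comp (Polynomial.X + Polynomial.C v) = 1

/-- XGR: the group data.  `h_1, ..., h_r ∈ M` with `[G, h_i] ⊆ ⟨z⟩`, `S g h_i = h_i + β_i(g) z`, the common kernel of
the `β_i` is `M`; `c_i ∈ k` independent over `F_p`; `w = ∑ c_i h_i`, `ι = ∑ c_i β_i` -/
def S_XGR : Prop := ∀ (p d : ℕ) (k G : Type) [Field k] [IsAlgClosed k] [CharP k p] [Group G]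
  [Finite G] (M : Subgroup G) (z : G), p.Prime → XH p d M z →
  ∃ (n : ℕ) (φ : M ≃* Multiplicative (Fin n → ZMod p))
    (S : G → Matrix (Fin n) (Fin n) (ZMod p)) (ι : G → k) (zv : Fin n → ZMod p) (w : Fin n → k),
    XD M n φ S ι ∧ (∃ z' : M, (z' : G) = z ∧ Multiplicative.toAdd (φ z') = zv) ∧ zv ≠ 0 ∧
    ∀ g : G, S g *ᵥ zv = zv ∧ ∀ i, ∑ j, fp k (S g i j) * w j = w i + ι g * fp k (zv i)

/-- XCO: `C` and a particular `F`.  `σ : V → G` a section, `a_u(g) = σ(u) g σ(u + ι g)⁻¹ ∈ M`,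
`c_u(g) = S (σ(u + ι g)) φ(a_u(g))`, so `c_u(g h) = S h c_u(g) + c_{u + ι g}(h)`; `C g = ∑_u θ(X - u) c_u(g)`.
`E g = (C g) ^ p - C g` depends on `v = ι g` only, `F = - ∑_v θ(X + v) (S v)⁻¹ E v` -/
def S_XCO : Prop := ∀ (p : ℕ) (k G : Type) [Field k] [CharP k p] [Group G] [Finite G]
  (M : Subgroup G) (n : ℕ) (φ : M ≃* Multiplicative (Fin n → ZMod p))
  (S : G → Matrix (Fin n) (Fin n) (ZMod p)) (ι : G → k), p.Prime → XD M n φ S ι →
  ∃ (C : G → Fin n → Polynomial k) (F : Fin n → Polynomial k), XC M n φ S ι C F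

/-- XRD: reduction: every polynomial is `r ^ p - r` or has a reduced degree prime to `p` -/
def S_XRD : Prop := ∀ (p : ℕ) (k : Type) [Field k] [IsAlgClosed k] [CharP k p]
  (f : Polynomial k), p.Prime → (∃ r : Polynomial k, f = r ^ p - r) ∨
  ∃ (D : ℕ) (r : Polynomial k), 1 ≤ D ∧ ¬ p ∣ D ∧ (f - (r ^ p - r)).natDegree = D

/-- XT1: `α t ^ a + g`, `t = A`, reduced exponent `Q (a - 1) + 1` (coefficient `a α e_0`; the other exponents of
`A ^ a` above it are divisible by `p`, and reduce to less) -/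
def S_XT1 : Prop := ∀ (p d : ℕ) (k : Type) [Field k] [IsAlgClosed k] [CharP k p] (e : ℕ → k)
  (a : ℕ) (α : k) (g A : Polynomial k), p.Prime → e d = 1 → e 0 ≠ 0 →
  A = ∑ j ∈ range (d + 1), Polynomial.C (e j) * Polynomial.X ^ (p ^ j) → 1 ≤ d → 3 ≤ a →
  ¬ p ∣ a → α ≠ 0 → g.natDegree < p ^ d * (a - 1) + 1 →
  ∀ r : Polynomial k, Polynomial.C α * A ^ a + g ≠ r ^ p - r

/-- XT2: `α t ^ m + β (x t ^ m + λ t ^ (m + 1)) + g`, `λ = -1 / ((m + 1) e_0)`, has reduced degree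
`Q (m - 1) + 2` (coefficient `β m e_0 / 2`; with `λ` the exponents `Q m + 1` and `Q (m - 1) + p ^ j + 1`, `j ≥ 1`, cancel) -/
def S_XT2 : Prop := ∀ (p d : ℕ) (k : Type) [Field k] [IsAlgClosed k] [CharP k p] (e : ℕ → k)
  (m : ℕ) (α β : k) (g A : Polynomial k), p.Prime → p ≠ 2 → e d = 1 → e 0 ≠ 0 →
  A = ∑ j ∈ range (d + 1), Polynomial.C (e j) * Polynomial.X ^ (p ^ j) → 1 ≤ d → 4 ≤ m →
  ¬ p ∣ m → ¬ p ∣ (m + 1) → β ≠ 0 → g.natDegree < p ^ d * (m - 1) + 2 →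
  ∃ r : Polynomial k, ((Polynomial.C α * A ^ m + Polynomial.C β * (Polynomial.X * A ^ m +
    Polynomial.C (-1 / (((m + 1 : ℕ) : k) * e 0)) * A ^ (m + 1)) + g) - (r ^ p - r)).natDegree =
    p ^ d * (m - 1) + 2

/-- XPO: the choice of `F`: `F = F_0 + ∑_i R e_i A ^ (a_i) + w A ^ m + zv (X A ^ m + λ A ^ (m + 1))`, `F_0` from `XCO`,
`R = ∑_v θ(X + v) (S v)⁻¹`, `a_i` increasing, prime to `p`, larger than `deg F_0 + 3`, `m` large.  For `ℓ zv ≠ 0`: `XT2`.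
Independence: the `ℓ` with `ℓ F ∈ {r ^ p - r}` form a subspace stable under `ℓ ↦ ℓ S g`; if it is not `0`
it contains `ℓ ≠ 0` with `ℓ S g = ℓ` for all `g`; then `ℓ zv = 0`, `ℓ R = ℓ`, and `XT1` applies (`ℓ w ≠ 0`: `a = m`; else
`a = a_i`, the largest `i` with `ℓ_i ≠ 0`).  Then `XRD`. -/
def S_XPO : Prop := ∀ (p d : ℕ) (k G : Type) [Field k] [IsAlgClosed k] [CharP k p] [Group G]
  [Finite G] (M : Subgroup G) (n : ℕ) (φ : M ≃* Multiplicative (Fin n → ZMod p))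
  (S : G → Matrix (Fin n) (Fin n) (ZMod p)) (ι : G → k) (zv : Fin n → ZMod p) (w : Fin n → k),
  p.Prime → p ≠ 2 → 1 ≤ d → Nat.card (Set.range ι) = p ^ d → XD M n φ S ι → zv ≠ 0 →
  (∀ g : G, S g *ᵥ zv = zv ∧ ∀ i, ∑ j, fp k (S g i j) * w j = w i + ι g * fp k (zv i)) →
  ∃ (C : G → Fin n → Polynomial k) (m0 : ℕ), ∀ m : ℕ, m0 ≤ m → ¬ p ∣ m → ¬ p ∣ (m + 1) →
  ∃ F : Fin n → Polynomial k, XC M n φ S ι C F ∧
    ∀ ℓ : Fin n → ZMod p, ℓ ≠ 0 → ∃ (D : ℕ) (r : Polynomial k), 1 ≤ D ∧ ¬ p ∣ D ∧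
      ((∑ i, Polynomial.C (fp k (ℓ i)) * F i) - (r ^ p - r)).natDegree = D ∧
      (ℓ ⬝ᵥ zv ≠ 0 → D = p ^ d * (m - 1) + 2)

/-- XGA: the field `L = k(x)(Y)`, in an algebraic closure of `k(x)`, with the action of `G`:
`x ↦ x + ι g`, `Y ↦ S g Y + C g (x)` (`x ↦ x + ι g` extends to the closure; the image of `Y` is a root of the same
equations as `S g Y + C g (x)`, so differs by a vector over `F_p`; `Gal(L / k(x))` is all of `F_p ^ n` by the last
hypothesis; so the automorphism exists, and it is determined by its values on `x`, `Y`) -/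
def S_XGA : Prop := ∀ (p : ℕ) (k G : Type) [Field k] [CharP k p] [Group G] [Finite G]
  (M : Subgroup G) (n : ℕ) (φ : M ≃* Multiplicative (Fin n → ZMod p))
  (S : G → Matrix (Fin n) (Fin n) (ZMod p)) (ι : G → k) (C : G → Fin n → Polynomial k)
  (F : Fin n → Polynomial k), p.Prime → XD M n φ S ι → XC M n φ S ι C F →
  (∀ ℓ : Fin n → ZMod p, ℓ ≠ 0 → ∀ u : RatFunc k,
    u ^ p - u ≠ algebraMap (Polynomial k) (RatFunc k) (∑ i, Polynomial.C (fp k (ℓ i)) * F i)) →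
  ∃ (L : Type) (_ : Field L) (_ : Algebra k L) (x : L) (Y : Fin n → L)
    (ρ : G →* (L ≃ₐ[k] L)), Transcendental k x ∧ (∀ i, Y i ^ p - Y i = Polynomial.aeval x (F i)) ∧
    (∀ g : G, ρ g x = x + algebraMap k L (ι g)) ∧
    (∀ (g : G) (i : Fin n), ρ g (Y i) = (∑ j, algebraMap k L (fp k (S g i j)) * Y j) +
      Polynomial.aeval x (C g i)) ∧
    (∀ z : L, (∀ a ∈ M, ρ a z = z) → z ∈ IntermediateField.adjoin k {x}) ∧
    (∀ z : L, (∀ g : G, ρ g z = z) → z ∈ IntermediateField.adjoin k {Polynomial.aeval x (Apol ι)}) ∧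
    Module.Finite (IntermediateField.adjoin k {x}) L ∧
    Algebra.IsSeparable (IntermediateField.adjoin k {x}) L

/-- XUN: it is a cover (`t = A(x)`) -/
def S_XUN : Prop := ∀ (p : ℕ) (k L G : Type) [Field k] [CharP k p] [Field L] [Algebra k L] [Group G]
  [Finite G] (M : Subgroup G) (n : ℕ) (φ : M ≃* Multiplicative (Fin n → ZMod p))
  (S : G → Matrix (Fin n) (Fin n) (ZMod p)) (ι : G → k) (C : G → Fin n → Polynomial k)
  (F : Fin n → Polynomial k) (x : L) (Y : Fin n → L) (ρ : G →* (L ≃ₐ[k] L)), p.Prime →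
  XD M n φ S ι → XC M n φ S ι C F →
  Transcendental k x → (∀ i, Y i ^ p - Y i = Polynomial.aeval x (F i)) →
  (∀ g : G, ρ g x = x + algebraMap k L (ι g)) →
  (∀ (g : G) (i : Fin n), ρ g (Y i) = (∑ j, algebraMap k L (fp k (S g i j)) * Y j) +
    Polynomial.aeval x (C g i)) →
  (∀ z : L, (∀ g : G, ρ g z = z) → z ∈ IntermediateField.adjoin k {Polynomial.aeval x (Apol ι)}) →
  IsCover ρ (Polynomial.aeval x (Apol ι))

/-- XDC: the conductor is `(D0 + Q - 1) / Q`, `Q = p ^ d`.  As `DCO`: `TRM` for `M`; `RMX` for `N = ⊤` (orders on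
`k(t)` are multiples of `Q ord x`), `TOT`: all of `G` fixes `P`; `TMO`: `ram 1 = G`; `ELH`, `HBX`, `CMB`: `U(M) = D0`;
`HBX` for `N = M`, `y := x`, `D = 1` (`I` = the group generated by `M` and `g`): all `b g = 1`, `g ∉ M` (`UMW`: `b ≥ 1`);
so `|G| U(G) = |M| D0 + (|G| - |M|)`; `CNV` -/
def S_XDC : Prop := ∀ (p d : ℕ) (k L G : Type) [Field k] [Field L] [Algebra k L] [Group G] [Finite G]
  (P : Place k L) (ρ : G →* (L ≃ₐ[k] L)) (M : Subgroup G) (ι : G → k) (x : L) (z : G) (D0 : ℕ),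
  p.Prime → CharP k p → Function.Injective ρ → EA p M → 1 ≤ d →
  Nat.card G = p ^ d * Nat.card M → (∀ g : G, ∀ a ∈ M, g * a * g⁻¹ ∈ M) → (∀ g : G, g ^ p ∈ M) →
  Nat.card (Set.range ι) = p ^ d → (∀ g h : G, ι (g * h) = ι g + ι h) →
  (∀ g : G, ι g = 0 ↔ g ∈ M) → x ≠ 0 → P.ord x < 0 →
  (∀ g : G, ρ g x = x + algebraMap k L (ι g)) →
  (∀ z : L, (∀ a ∈ M, ρ a z = z) → z ∈ IntermediateField.adjoin k {x}) →
  (∀ z : L, (∀ g : G, ρ g z = z) → z ∈ IntermediateField.adjoin k {Polynomial.aeval x (Apol ι)}) →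
  z ∈ M → z ≠ 1 → 2 ≤ D0 →
  (∀ J : Subgroup G, J ≤ M → Nat.card M = p * Nat.card J → ∃ (y : L) (D : ℕ), ¬ p ∣ D ∧ 1 ≤ D ∧
    y ≠ 0 ∧ (∀ j ∈ J, ρ j y = y) ∧
    (∀ a ∈ M, a ∉ J → ∃ c : k, c ≠ 0 ∧ ρ a y = y + algebraMap k L c) ∧
    (p : ℤ) * P.ord y = D * P.ord x ∧ (z ∉ J → D = D0)) →
  IsConductor P ρ (((D0 : ℚ) + (p ^ d - 1)) / p ^ d)

/-- XLO: from `XGR`, `XPO`, `ASR`, `XGA`, `EXI`, `XUN`, `XDC` (as `DLO`); `(D0 + Q - 1) / Q = m + 1 / Q` -/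
def S_XLO : Prop := ∀ (p d : ℕ) (k G : Type) [Field k] [IsAlgClosed k] [Group G] [Finite G]
  (M : Subgroup G) (z : G), p.Prime → CharP k p → p ≠ 2 → 1 ≤ d → XH p d M z →
  ∃ m0 : ℕ, ∀ m : ℕ, m0 ≤ m → ¬ p ∣ m → ¬ p ∣ (m + 1) → ((m : ℚ) + 1 / (p ^ d : ℕ)) ∈ Cond k G

/-- XFI: from `XLO`, `UPA`, `NGL` -/
def S_XFI : Prop := ∀ (p d : ℕ) (k G : Type) [Field k] [IsAlgClosed k] [Group G] [Finite G]
  (M : Subgroup G) (z : G), p.Prime → CharP k p → p ≠ 2 → 1 ≤ d → XH p d M z → NG k G = p ^ d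

/-- XES: extraspecial `p`-groups, `p` odd, both types: `M` = the preimage of a Lagrangian subspace of `G / Z`
contained in the kernel of the (linear) map `g ↦ g ^ p` to `Z`; this kernel is all of `G / Z` or `v^⊥` -/
def S_XES : Prop := ∀ (p h : ℕ) (G : Type) [Group G] [Finite G], p.Prime → p ≠ 2 → 1 ≤ h →
  Nat.card G = p ^ (2 * h + 1) → Nat.card (Subgroup.center G) = p →
  (∀ g : G, g ^ p ∈ Subgroup.center G) → (∀ g g' : G, g * g' * g⁻¹ * g'⁻¹ ∈ Subgroup.center G) →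
  ∃ (M : Subgroup G) (z : G), XH p h M z

/-- XEF: from `XFI`, `XES` -/
def S_XEF : Prop := ∀ (p h : ℕ) (k G : Type) [Field k] [IsAlgClosed k] [Group G] [Finite G],
  p.Prime → CharP k p → p ≠ 2 → 1 ≤ h → Nat.card G = p ^ (2 * h + 1) →
  Nat.card (Subgroup.center G) = p → (∀ g : G, g ^ p ∈ Subgroup.center G) →
  (∀ g g' : G, g * g' * g⁻¹ * g'⁻¹ ∈ Subgroup.center G) → NG k G = p ^ h

end Pool.CND
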